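import Mathlib

set_option autoImplicit false

namespace Pool.Agent.H.MP_40378c_al

open SimpleGraph Filter

variable {V V' : Type}

/-- ray -/
def IsRay (G : SimpleGraph V) (R : ℕ → V) : Prop :=
  Function.Injective R ∧ ∀ n, G.Adj (R n) (R (n + 1))

/-- same end -/
def SameEnd (G : SimpleGraph V) (R R' : ℕ → V) : Prop :=
  ∀ S : Finset V, ∃ N, ∀ i ≥ N, ∀ j ≥ N, ∃ p : G.Walk (R i) (R' j), ∀ v ∈ p.support, v ∉ S

/-- coconnected sets -/
def CConn (G : SimpleGraph V) (F : Set V) : Prop :=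
  (G.induce F).Connected ∧ (G.induce Fᶜ).Connected ∧
    ¬ ∃ R R', IsRay G R ∧ IsRay G R' ∧ (∀ n, R n ∈ F) ∧ (∀ n, R' n ∈ Fᶜ) ∧ SameEnd G R R'

/-- connected boundaries at a scale -/
def CB (G : SimpleGraph V) (r : ℕ) : Prop :=
  ∀ F, CConn G F → (G.induce ({x | ∃ y ∈ F, G.dist x y ≤ r + 1} \ F)).Connected

/-- restriction to a set -/
def res (G : SimpleGraph V) (A : Set V) : SimpleGraph V where
  Adj a b := G.Adj a b ∧ a ∈ A ∧ b ∈ A
  symm := ⟨fun _ _ h => ⟨h.1.symm, h.2.2, h.2.1⟩⟩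
  loopless := ⟨fun _ h => h.1.ne rfl⟩

variable {G : SimpleGraph V} {G' : SimpleGraph V'}

theorem rch_ind {A : Set V} {P : V → Prop} {x y : V} (h : (res G A).Reachable x y) (h0 : P x)
    (h1 : ∀ a b, G.Adj a b → a ∈ A → b ∈ A → P a → P b) : P y := by
  rw [reachable_iff_reflTransGen] at h
  induction h with
  | refl => exact h0
  | tail _ h ih => exact h1 _ _ h.1 h.2.1 h.2.2 ih

theorem rch_adj {A : Set V} {a b : V} (h : G.Adj a b) (ha : a ∈ A) (hb : b ∈ A) :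
    (res G A).Reachable a b := Adj.reachable ⟨h, ha, hb⟩

theorem conn_iff (A : Set V) : (G.induce A).Connected ↔
    A.Nonempty ∧ ∀ x ∈ A, ∀ y ∈ A, (res G A).Reachable x y := by
  constructor
  · intro h
    obtain ⟨a⟩ := h.nonempty
    exact ⟨⟨a, a.2⟩, fun x hx y hy => (h ⟨x, hx⟩ ⟨y, hy⟩).map
      (⟨Subtype.val, fun {a b} h => ⟨h, a.2, b.2⟩⟩ : G.induce A →g res G A)⟩
  · rintro ⟨⟨a, ha⟩, h⟩
    have : Nonempty A := ⟨⟨a, ha⟩⟩
    refine ⟨fun x y => ?_⟩
    exact rch_ind (P := fun v => ∀ hv : v ∈ A, (G.induce A).Reachable x ⟨v, hv⟩) (h x x.2 y y.2)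
      (fun _ => Reachable.refl _) (fun a b hab ha _ ih hb => (ih ha).trans
        (Adj.reachable (show (G.induce A).Adj ⟨a, ha⟩ ⟨b, hb⟩ from hab))) y.2

theorem walk_rch {A : Set V} {x y : V} (p : G.Walk x y) (h : ∀ v ∈ p.support, v ∈ A) :
    (res G A).Reachable x y := by
  induction p with
  | nil => rfl
  | cons hab p ih =>
    exact (rch_adj hab (h _ (by simp)) (h _ (by simp))).trans (ih fun v hv => h v (by simp [hv]))

theorem rch_walk {A : Set V} {x y : V} (h : (res G A).Reachable x y) (hx : x ∈ A) :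
    ∃ p : G.Walk x y, ∀ v ∈ p.support, v ∈ A :=
  rch_ind (P := fun y => ∃ p : G.Walk x y, ∀ v ∈ p.support, v ∈ A) h ⟨.nil, by simpa⟩
    fun a b hab _ hb ⟨p, hp⟩ => ⟨p.concat hab, fun v hv => by
      rw [Walk.support_concat, List.mem_append, List.mem_singleton] at hv
      exact hv.elim (hp v) fun e => e ▸ hb⟩

theorem dist_supp {x y v : V} (p : G.Walk x y) (h : v ∈ p.support) : G.dist x v ≤ p.length := by
  classical
  exact (dist_le (p.takeUntil v h)).trans (p.length_takeUntil_le_length h)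

theorem geo (hG : G.Connected) {A : Set V} {x y : V} {m : ℕ} (h : G.dist x y ≤ m)
    (hA : ∀ v, G.dist x v ≤ m → v ∈ A) : (res G A).Reachable x y := by
  obtain ⟨p, hp⟩ := hG.exists_walk_length_eq_dist x y
  exact walk_rch p fun v hv => hA v ((dist_supp p hv).trans (hp ▸ h))

theorem exit_walk {E : Set V} {a b : V} (p : G.Walk a b) (ha : a ∈ E) (hb : b ∉ E) :
    ∃ c ∈ E, ∃ d ∉ E, G.Adj c d ∧ c ∈ p.support ∧ d ∈ p.support := by
  induction p with
  | nil => exact absurd ha hb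
  | @cons a a' _ hab p ih =>
    by_cases h : a' ∈ E
    · obtain ⟨c, h1, d, h2, h3, h4, h5⟩ := ih h hb
      exact ⟨c, h1, d, h2, h3, by simp [h4], by simp [h5]⟩
    · exact ⟨a, ha, a', h, hab, by simp, by simp⟩

theorem exit (hG : G.Connected) {E : Set V} {a b : V} (ha : a ∈ E) (hb : b ∉ E) :
    ∃ c ∈ E, ∃ d ∉ E, G.Adj c d ∧ G.dist a c ≤ G.dist a b ∧ G.dist a d ≤ G.dist a b := by
  obtain ⟨p, hp⟩ := hG.exists_walk_length_eq_dist a b
  obtain ⟨c, h1, d, h2, h3, h4, h5⟩ := exit_walk p ha hb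
  exact ⟨c, h1, d, h2, h3, hp ▸ dist_supp p h4, hp ▸ dist_supp p h5⟩

theorem adj_dist {a b : V} (h : G.Adj a b) : G.dist a b ≤ 1 := (dist_eq_one_iff_adj.2 h).le

theorem parent {v o : V} {k : ℕ} (h : G.dist v o = k + 1) :
    ∃ w, G.Adj v w ∧ G.dist w o = k ∧ G.Reachable w o := by
  obtain ⟨p, hp⟩ := exists_walk_of_dist_ne_zero (G := G) (u := v) (v := o) (by omega)
  cases p with
  | nil => simp at h
  | @cons _ w _ hab q =>
    have h1 := dist_le q
    have h2 := hab.reachable.dist_triangle_left o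
    have h3 := adj_dist hab
    rw [Walk.length_cons] at hp
    have h4 := q.reachable.dist_triangle_right v
    exact ⟨w, hab, by omega, q.reachable⟩

theorem ball_finite (hl : ∀ v, (G.neighborSet v).Finite) (o : V) (k : ℕ) :
    {v | G.Reachable v o ∧ G.dist v o ≤ k}.Finite := by
  induction k with
  | zero => exact (Set.finite_singleton o).subset fun v hv =>
      hv.1.dist_eq_zero_iff.1 (Nat.le_zero.1 hv.2)
  | succ k ih =>
    refine (ih.union (ih.biUnion fun w _ => hl w)).subset fun v hv => ?_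
    rcases hv.2.eq_or_lt with h | h
    · obtain ⟨w, h1, h2, h3⟩ := parent h
      exact Or.inr (Set.mem_biUnion (x := w) ⟨h3, h2.le⟩ h1.symm)
    · exact Or.inl ⟨hv.1, by omega⟩

theorem ray_of (hl : ∀ v, (G.neighborSet v).Finite) {A : Set V}
    (hA : ∀ x ∈ A, ∀ y ∈ A, (res G A).Reachable x y) (𝒰 : Ultrafilter V) (u : V → V)
    (h1 : Tendsto u 𝒰 cofinite) (h2 : ∀ᶠ n in 𝒰, u n ∈ A) :
    ∃ R, IsRay G R ∧ (∀ n, R n ∈ A) ∧ ∀ S : Finset V, ∃ N, ∀ i ≥ N, ∀ᶠ n in 𝒰,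
      ∃ p : G.Walk (R i) (u n), ∀ v ∈ p.support, v ∉ S := by
  classical
  obtain ⟨n0, ho⟩ := h2.exists
  generalize u n0 = o at ho
  have hl' : ∀ v, ((res G A).neighborSet v).Finite := fun v => (hl v).subset fun w hw => hw.1
  have hp : ∀ v, ∃ w, ∀ k, (res G A).dist v o = k + 1 →
      (res G A).Adj v w ∧ (res G A).dist w o = k := fun v => by
    rcases h : (res G A).dist v o with _ | k
    · exact ⟨v, by simp⟩
    · obtain ⟨w, a, b, -⟩ := parent h
      exact ⟨w, fun k' e => ⟨a, by omega⟩⟩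
  choose par hp using hp
  have hit : ∀ i k v, v ∈ A → (res G A).dist v o = i + k → par^[k] v ∈ A ∧
      (res G A).dist (par^[k] v) o = i ∧
      (res G {w | i ≤ (res G A).dist w o}).Reachable (par^[k] v) v := by
    intro i k
    induction k with
    | zero => exact fun v hv h => ⟨hv, h, Reachable.refl _⟩
    | succ k ih =>
      intro v hv h
      obtain ⟨a, b⟩ := hp v (i + k) h
      obtain ⟨c, d, e⟩ := ih (par v) a.2.2 b
      exact ⟨c, d, e.trans (rch_adj a.1.symm (by simp [b]) (by simp [h]))⟩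
  have hfar : ∀ i, ∀ᶠ n in 𝒰, u n ∈ A ∧ i < (res G A).dist (u n) o := fun i =>
    (h2.and (h1 (ball_finite hl' o i).compl_mem_cofinite)).mono fun n hn =>
      ⟨hn.1, not_le.1 fun h => hn.2 ⟨hA _ hn.1 _ ho, h⟩⟩
  have hR : ∀ i, ∃ x, ∀ᶠ n in 𝒰, par^[(res G A).dist (u n) o - i] (u n) = x := fun i => by
    obtain ⟨x, -, hx⟩ := (𝒰.map fun n => par^[(res G A).dist (u n) o - i] (u n)).eq_pure_of_finite_mem
      (ball_finite hl' o i) ((hfar i).mono fun n hn => by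
        obtain ⟨a, b, -⟩ := hit i ((res G A).dist (u n) o - i) (u n) hn.1 (by omega)
        exact ⟨hA _ a _ ho, b.le⟩)
    exact ⟨x, show {x} ∈ 𝒰.map _ from hx ▸ Ultrafilter.mem_pure.2 rfl⟩
  choose R hR using hR
  have hd : ∀ i, R i ∈ A ∧ (res G A).dist (R i) o = i := fun i => by
    obtain ⟨n, a, b⟩ := ((hfar i).and (hR i)).exists
    obtain ⟨c, d, -⟩ := hit i ((res G A).dist (u n) o - i) (u n) a.1 (by omega)
    exact b ▸ ⟨c, d⟩
  refine ⟨R, ⟨fun i j h => by rw [← (hd i).2, h, (hd j).2], fun i => ?_⟩, fun i => (hd i).1,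
    fun S => ⟨S.sup (fun s => (res G A).dist s o) + 1, fun i hi => ((hfar i).and (hR i)).mono
      fun n hn => ?_⟩⟩
  · obtain ⟨n, a, b, c⟩ := ((hfar i).and ((hR i).and (hR (i + 1)))).exists
    rw [show (res G A).dist (u n) o - i = (res G A).dist (u n) o - (i + 1) + 1 by omega,
      Function.iterate_succ_apply', c] at b
    exact b ▸ (hp _ i (hd (i + 1)).2).1.1.symm
  · obtain ⟨-, b, c⟩ := hit i ((res G A).dist (u n) o - i) (u n) hn.1.1 (by omega)
    rw [hn.2] at b c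
    obtain ⟨p, hp⟩ := rch_walk c b.ge
    refine ⟨p, fun v hv hS => ?_⟩
    have h3 := Finset.le_sup (f := fun s => (res G A).dist s o) hS
    have h4 : i ≤ (res G A).dist v o := hp v hv
    omega

theorem bd_finite (hl : ∀ v, (G.neighborSet v).Finite) {F : Set V} (h : CConn G F) :
    {x | x ∈ F ∧ ∃ y ∉ F, G.Adj x y}.Finite := by
  by_contra hinf
  have hv : ∀ x, ∃ y, (x ∈ F ∧ ∃ y ∉ F, G.Adj x y) → y ∉ F ∧ G.Adj x y := fun x => by
    by_cases hx : x ∈ F ∧ ∃ y ∉ F, G.Adj x y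
    · obtain ⟨y, hy⟩ := hx.2
      exact ⟨y, fun _ => hy⟩
    · exact ⟨x, fun h => absurd h hx⟩
  choose v hv using hv
  have : (cofinite ⊓ 𝓟 {x | x ∈ F ∧ ∃ y ∉ F, G.Adj x y}).NeBot :=
    cofinite_inf_principal_neBot_iff.2 hinf
  obtain ⟨𝒰, hU⟩ := Ultrafilter.exists_le (cofinite ⊓ 𝓟 {x | x ∈ F ∧ ∃ y ∉ F, G.Adj x y})
  have u1 : (𝒰 : Filter V) ≤ cofinite := hU.trans inf_le_left
  have u2 : ∀ᶠ x in 𝒰, x ∈ F ∧ ∃ y ∉ F, G.Adj x y := le_principal_iff.1 (hU.trans inf_le_right)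
  obtain ⟨R, r1, r2, r3⟩ := ray_of hl ((conn_iff F).1 h.1).2 𝒰 id u1 (u2.mono fun _ h => h.1)
  obtain ⟨R', s1, s2, s3⟩ := ray_of hl ((conn_iff Fᶜ).1 h.2.1).2 𝒰 v (fun T hT =>
    (u2.and (u1 ((mem_cofinite.1 hT).biUnion fun w _ => hl w).compl_mem_cofinite)).mono
      fun x hx => by
        by_contra hc
        exact hx.2 (Set.mem_biUnion (x := v x) hc (hv x hx.1).2.symm))
    (u2.mono fun x h => (hv x h).1)
  refine h.2.2 ⟨R, R', r1, s1, r2, s2, fun S => ?_⟩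
  obtain ⟨N, hN⟩ := r3 S
  obtain ⟨N', hN'⟩ := s3 S
  refine ⟨max N N', fun i hi j hj => ?_⟩
  obtain ⟨x, a, ⟨p, hp⟩, q, hq⟩ := (u2.and ((hN i (le_of_max_le_left hi)).and
    (hN' j (le_of_max_le_right hj)))).exists
  refine ⟨p.append (.cons (hv x a).2 q.reverse), fun w hw => ?_⟩
  rw [Walk.mem_support_append_iff, Walk.support_cons, List.mem_cons, Walk.support_reverse,
    List.mem_reverse] at hw
  rcases hw with hw | rfl | hw
  · exact hp w hw
  · exact hp _ p.end_mem_support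
  · exact hq w hw

theorem cconn_of {F : Set V} (h1 : (G.induce F).Connected) (h2 : (G.induce Fᶜ).Connected)
    (h3 : {x | x ∈ F ∧ ∃ y ∉ F, G.Adj x y}.Finite) : CConn G F := by
  refine ⟨h1, h2, ?_⟩
  rintro ⟨R, R', -, -, a, b, c⟩
  obtain ⟨N, hN⟩ := c h3.toFinset
  obtain ⟨p, hp⟩ := hN N le_rfl N le_rfl
  obtain ⟨c, c1, d, c2, c3, c4, -⟩ := exit_walk p (a N) (b N)
  exact hp c c4 (h3.mem_toFinset.2 ⟨c1, d, c2, c3⟩)

theorem main (hG : G.Connected) (hG' : G'.Connected) (hl : ∀ v, (G.neighborSet v).Finite)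
    (hl' : ∀ v, (G'.neighborSet v).Finite) (φ : V' → V) (ψ : V → V') (K : ℕ) (hK : 1 ≤ K)
    (h1 : ∀ x y, G.dist (φ x) (φ y) ≤ K * G'.dist x y)
    (h2 : ∀ u v, G'.dist (ψ u) (ψ v) ≤ K * G.dist u v)
    (h3 : ∀ u, G.dist (φ (ψ u)) u ≤ K) (h4 : ∀ x, G'.dist (ψ (φ x)) x ≤ K) {r : ℕ} (H : CB G r) :
    ∃ s, CB G' s := by
  obtain ⟨m, hm⟩ : ∃ m, m = K * K + K := ⟨_, rfl⟩
  obtain ⟨k, hk⟩ : ∃ k, k = K * m + K + r + 1 := ⟨_, rfl⟩
  obtain ⟨s, hs⟩ : ∃ s, s = K * (k + K + 2 * r + 2) + 2 * K + m := ⟨_, rfl⟩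
  refine ⟨s, fun F hF => ?_⟩
  have t := @hG.dist_triangle
  have t' := @hG'.dist_triangle
  have a1 : ∀ {x y}, G'.Adj x y → G.dist (φ x) (φ y) ≤ K := fun {x y} h =>
    (h1 x y).trans (by simpa using Nat.mul_le_mul_left K (adj_dist h))
  have a2 : ∀ {u y n}, G.dist u (φ y) ≤ n → G'.dist (ψ u) y ≤ K * n + K := fun {u y n} h => by
    have := t' (u := ψ u) (v := ψ (φ y)) (w := y)
    have := h2 u (φ y)
    have := Nat.mul_le_mul_left K h
    have := h4 y
    omega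
  have a3 : ∀ {u y n}, G'.dist (ψ u) y ≤ n → G.dist u (φ y) ≤ K * n + K := fun {u y n} h => by
    have := t (u := u) (v := φ (ψ u)) (w := φ y)
    have := h1 (ψ u) y
    have := Nat.mul_le_mul_left K h
    have := h3 u
    rw [SimpleGraph.dist_comm] at this
    omega
  have a4 : ∀ {x y n}, G.dist (φ x) (φ y) ≤ n → G'.dist x y ≤ K * n + 2 * K := fun {x y n} h => by
    have := t' (u := x) (v := ψ (φ x)) (w := y)
    have := a2 h
    have := h4 x
    rw [SimpleGraph.dist_comm] at this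
    omega
  set Ω : Set V' := {x | ∃ y ∈ F, G'.dist x y ≤ s + 1} \ F with hΩ
  set Z : Set V := {u | ∃ y ∈ F, G.dist u (φ y) ≤ k} with hZ
  let E : V → Set V := fun u => {v | (res G Zᶜ).Reachable u v}
  let B : V → Set V := fun u => {x | ∃ y ∈ E u, G.dist x y ≤ r + 1} \ E u
  obtain ⟨⟨f0, hf0⟩, hFc⟩ := (conn_iff F).1 hF.1
  have e1 : ∀ u ∉ Z, ∀ v ∈ E u, v ∉ Z := fun u hu v hv =>
    rch_ind (P := fun v => v ∉ Z) hv hu fun _ _ _ _ h _ => h
  have e2 : ∀ u ∉ Z, ∀ v ∈ E u, ∀ w ∉ E u, G.Adj v w → w ∈ Z := fun u hu v hv w hw h => by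
    by_contra hc
    exact hw (Reachable.trans hv (rch_adj h (e1 u hu v hv) hc))
  have z1 : ∀ y ∈ F, ∀ v, G.dist (φ y) v ≤ k → v ∈ Z := fun y hy v h => ⟨y, hy, SimpleGraph.dist_comm ▸ h⟩
  have e3 : ∀ u ∉ Z, CConn G (E u) := fun u hu => by
    have hZE : Z ⊆ (E u)ᶜ := fun z hz h => e1 u hu z h hz
    refine cconn_of ((conn_iff _).2 ⟨⟨u, Reachable.refl _⟩, ?_⟩)
      ((conn_iff _).2 ⟨⟨φ f0, hZE (z1 f0 hf0 _ (by simp))⟩, ?_⟩) ?_
    · have : ∀ v ∈ E u, (res G (E u)).Reachable u v := fun v hv =>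
        (rch_ind (P := fun v => v ∈ E u ∧ (res G (E u)).Reachable u v) hv
          ⟨Reachable.refl _, Reachable.refl _⟩ fun a b hab ha hb ih =>
          ⟨Reachable.trans ih.1 (rch_adj hab ha hb),
            ih.2.trans (rch_adj hab ih.1 (Reachable.trans ih.1 (rch_adj hab ha hb)))⟩).2
      exact fun x hx y hy => (this x hx).symm.trans (this y hy)
    · have b1 : ∀ z ∈ Z, (res G (E u)ᶜ).Reachable (φ f0) z := by
        rintro z ⟨y, hy, hz⟩
        refine Reachable.trans ?_ (geo hG (SimpleGraph.dist_comm ▸ hz) fun v hv => hZE (z1 y hy v hv))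
        exact rch_ind (P := fun y => (res G (E u)ᶜ).Reachable (φ f0) (φ y)) (hFc f0 hf0 y hy)
          (Reachable.refl _) fun a b hab ha _ ih => ih.trans
            (geo hG (a1 hab) fun v hv => hZE (z1 a ha v (by omega)))
      have b2 : ∀ v w (_ : G.Walk v w), w ∈ Z → v ∉ E u → (res G (E u)ᶜ).Reachable (φ f0) v := by
        intro v w p hw
        induction p with
        | nil => exact fun _ => b1 _ hw
        | @cons a b _ hab p ih =>
          intro ha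
          by_cases hb : b ∈ E u
          · exact b1 _ (e2 u hu b hb a ha hab.symm)
          · exact (ih hw hb).trans (rch_adj hab.symm hb ha)
      have b3 : ∀ v ∉ E u, (res G (E u)ᶜ).Reachable (φ f0) v := fun v hv =>
        (hG v (φ f0)).elim fun p => b2 v _ p (z1 f0 hf0 _ (by simp)) hv
      exact fun x hx y hy => (b3 x hx).symm.trans (b3 y hy)
    · refine ((bd_finite hl' hF).biUnion fun b _ =>
        ball_finite hl (φ b) (K * (2 * (K * (k + 1) + K)) + K)).subset ?_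
      rintro v ⟨hv, w, hw, hvw⟩
      obtain ⟨y, hy, hd⟩ := e2 u hu v hv w hw hvw
      have c1 : G'.dist (ψ v) y ≤ K * (k + 1) + K := a2 (by
        have := t (u := v) (v := w) (w := φ y)
        have := adj_dist hvw
        omega)
      have c2 : ψ v ∉ F := fun h => e1 u hu v hv (z1 _ h v ((h3 v).trans (by omega)))
      obtain ⟨c, c3, d, c4, c5, c6, -⟩ := exit hG' hy c2
      refine Set.mem_biUnion (x := c) ⟨c3, d, c4, c5⟩ ⟨hG _ _, a3 ?_⟩
      have := t' (u := ψ v) (v := y) (w := c)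
      rw [SimpleGraph.dist_comm (u := y) (v := ψ v)] at c6
      omega
  have g1 : ∀ u ∉ Z, ∀ b ∈ B u, ∀ x, G'.dist (ψ b) x ≤ m → (res G' Ω).Reachable (ψ b) x := by
    rintro u hu b ⟨⟨e, he, hb⟩, hb'⟩ x hx
    obtain ⟨c, c1, d, c2, c3, -, c4⟩ := exit hG he hb'
    obtain ⟨y, hy, hd⟩ := e2 u hu c c1 d c2 c3
    have c5 : G'.dist (ψ b) y ≤ K * (k + 2 * r + 2) + K := a2 (by
      have := t (u := b) (v := e) (w := φ y)
      have := t (u := e) (v := d) (w := φ y)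
      rw [SimpleGraph.dist_comm (u := e) (v := b)] at c4
      omega)
    refine geo hG' hx fun v hv => ⟨⟨y, hy, ?_⟩, fun hvF => e1 u hu e he ⟨v, hvF, ?_⟩⟩
    · have := t' (u := v) (v := ψ b) (w := y)
      have : K * (k + 2 * r + 2) ≤ K * (k + K + 2 * r + 2) := Nat.mul_le_mul_left K (by omega)
      rw [SimpleGraph.dist_comm] at hv
      omega
    · have := t (u := e) (v := b) (w := φ v)
      have := a3 hv
      rw [SimpleGraph.dist_comm] at hb
      omega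
  have g2 : ∀ u ∉ Z, ∀ b ∈ B u, ∀ b' ∈ B u, (res G' Ω).Reachable (ψ b) (ψ b') :=
    fun u hu b hb b' hb' => rch_ind (P := fun v => (res G' Ω).Reachable (ψ b) (ψ v))
      (((conn_iff _).1 (H _ (e3 u hu))).2 b hb b' hb') (Reachable.refl _)
      fun c d hcd hc _ ih => ih.trans (g1 u hu c hc _ (by
        have := h2 c d
        have := Nat.mul_le_mul_left K (adj_dist hcd)
        omega))
  have eq1 : ∀ u v, v ∈ E u → B v = B u := fun u v h => by
    have : E v = E u := Set.ext fun w => ⟨fun h' => Reachable.trans h h',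
      fun h' => (Reachable.symm h).trans h'⟩
    simp only [B, this]
  have g3 : ∀ n, n ≤ s + 1 → ∀ x ∉ F, ∀ y ∈ F, G'.dist x y = n → φ x ∉ Z →
      ∃ b ∈ B (φ x), (res G' Ω).Reachable x (ψ b) := by
    intro n
    induction n with
    | zero => exact fun _ x hx y hy h _ => absurd (hG'.dist_eq_zero_iff.1 h ▸ hy) hx
    | succ n ih =>
      intro hn x hx y hy h hz
      obtain ⟨w, w1, w2, -⟩ := parent h
      have w3 : w ∉ F := fun hw => hz ⟨w, hw, (a1 w1).trans (by omega)⟩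
      by_cases hw : φ w ∈ E (φ x)
      · obtain ⟨b, hb, hb'⟩ := ih (by omega) w w3 y hy w2 (e1 _ hz _ hw)
        exact ⟨b, eq1 _ _ hw ▸ hb, (rch_adj (A := Ω) w1 ⟨⟨y, hy, by omega⟩, hx⟩
          ⟨⟨y, hy, by omega⟩, w3⟩).trans hb'⟩
      · obtain ⟨c, c1, d, c2, c3, -, c4⟩ := exit hG (E := E (φ x)) (Reachable.refl (φ x)) hw
        have hd : d ∈ B (φ x) := ⟨⟨c, c1, (adj_dist c3.symm).trans (by omega)⟩, c2⟩
        exact ⟨d, hd, (g1 _ hz d hd x (hm ▸ a2 (SimpleGraph.dist_comm ▸ c4.trans (a1 w1)))).symm⟩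
  have g4 : ∀ x ∈ Ω, φ x ∉ Z → ∃ b ∈ B (φ x), (res G' Ω).Reachable x (ψ b) :=
    fun x ⟨⟨y, hy, h⟩, hx⟩ => g3 _ h x hx y hy rfl
  rw [conn_iff]
  obtain ⟨⟨f1, hf1⟩, hFd⟩ := (conn_iff _).1 hF.2.1
  constructor
  · obtain ⟨c, c1, d, c2, c3, -⟩ := exit hG' hf0 hf1
    exact ⟨d, ⟨c, c1, (adj_dist c3.symm).trans (by omega)⟩, c2⟩
  intro x0 hx0 x1 hx1
  have C1 : ∀ x ∈ Ω, ((x ∈ Ω ∧ (res G' Ω).Reachable x0 x) ∨
      (φ x ∉ Z ∧ ∃ b ∈ B (φ x), (res G' Ω).Reachable x0 (ψ b))) → (res G' Ω).Reachable x0 x := by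
    rintro x hx (h | ⟨hz, b, hb, h⟩)
    · exact h.2
    · obtain ⟨b', hb', h'⟩ := g4 x hx hz
      exact (h.trans (g2 _ hz b hb b' hb')).trans h'.symm
  refine C1 x1 hx1 (rch_ind (P := fun x => (x ∈ Ω ∧ (res G' Ω).Reachable x0 x) ∨
      (φ x ∉ Z ∧ ∃ b ∈ B (φ x), (res G' Ω).Reachable x0 (ψ b))) (hFd x0 hx0.2 x1 hx1.2)
      (Or.inl ⟨hx0, Reachable.refl _⟩) fun x x' hxx hx hx' ih => ?_)
  by_cases hc : x ∈ Ω ∧ x' ∈ Ω
  · exact Or.inl ⟨hc.2, (C1 x hc.1 ih).trans (rch_adj hxx hc.1 hc.2)⟩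
  have d1 : ∀ v, G.dist (φ x) v ≤ K → v ∈ Zᶜ := by
    rintro v hv ⟨y, hy, hd⟩
    have d2 : G'.dist x y ≤ K * (k + K) + 2 * K := a4 (by
      have := t (u := φ x) (v := v) (w := φ y)
      omega)
    have := t' (u := x') (v := x) (w := y)
    have := adj_dist hxx.symm
    have : K * (k + K) ≤ K * (k + K + 2 * r + 2) := Nat.mul_le_mul_left K (by omega)
    exact hc ⟨⟨⟨y, hy, by omega⟩, hx⟩, ⟨⟨y, hy, by omega⟩, hx'⟩⟩
  have d2 : φ x' ∈ E (φ x) := geo hG (a1 hxx) d1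
  have d3 : φ x ∉ Z := d1 _ (by simp)
  refine Or.inr ⟨d1 _ (a1 hxx), ?_⟩
  rw [eq1 _ _ d2]
  rcases ih with h | h
  · obtain ⟨b, hb, h'⟩ := g4 x h.1 d3
    exact ⟨b, hb, h.2.trans h'⟩
  · exact h.2

theorem lip (hG : G.Connected) (hG' : G'.Connected) (f : V → V') (K : ℕ)
    (h : ∀ x y, G.Adj x y → G'.dist (f x) (f y) ≤ K) (x y : V) :
    G'.dist (f x) (f y) ≤ K * G.dist x y := by
  obtain ⟨p, hp⟩ := hG.exists_walk_length_eq_dist x y
  rw [← hp]
  clear hp
  induction p with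
  | nil => simp
  | @cons a b c hab p ih =>
    have := hG'.dist_triangle (u := f a) (v := f b) (w := f c)
    have := h a b hab
    rw [Walk.length_cons, mul_add]
    omega

theorem qi (hG : G.Connected) (hG' : G'.Connected) (hl : ∀ v, (G.neighborSet v).Finite)
    (hl' : ∀ v, (G'.neighborSet v).Finite) (f : V → V') (K C : ℝ) (hK : 1 ≤ K) (hC : 0 ≤ C)
    (h1 : ∀ x y, K⁻¹ * G.dist x y - C ≤ G'.dist (f x) (f y))
    (h2 : ∀ x y, (G'.dist (f x) (f y) : ℝ) ≤ K * G.dist x y + C)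
    (h3 : ∀ y, ∃ x, (G'.dist y (f x) : ℝ) ≤ C) : (∃ r, CB G r) ↔ ∃ r, CB G' r := by
  choose g hg using h3
  obtain ⟨N, hN⟩ := exists_nat_ge (K * (1 + 3 * C) + C)
  have hKC := mul_nonneg (zero_le_one.trans hK) hC
  have h1' : ∀ x y, (G.dist x y : ℝ) ≤ K * (G'.dist (f x) (f y) + C) := fun x y => by
    rw [← inv_mul_le_iff₀ (by linarith)]
    linarith [h1 x y]
  have n1 : 1 ≤ N := by exact_mod_cast (show (1 : ℝ) ≤ N by nlinarith)
  have n2 := lip hG hG' f N fun x y h => by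
    have := h2 x y
    rw [dist_eq_one_iff_adj.2 h] at this
    exact_mod_cast (show (G'.dist (f x) (f y) : ℝ) ≤ N by push_cast at this; nlinarith)
  have n3 := lip hG' hG g N fun x y h => by
    have a1 : (G'.dist (f (g x)) (f (g y)) : ℝ) ≤ G'.dist x (f (g x)) + (1 + G'.dist y (f (g y))) := by
      have := hG'.dist_triangle (u := f (g x)) (v := x) (w := f (g y))
      have := hG'.dist_triangle (u := x) (v := y) (w := f (g y))
      have := adj_dist h
      rw [SimpleGraph.dist_comm (u := x)]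
      exact_mod_cast (by omega)
    have a2 : K * (G'.dist (f (g x)) (f (g y)) + C) ≤ K * (1 + 3 * C) := by
      apply mul_le_mul_of_nonneg_left _ (by linarith)
      linarith [hg x, hg y]
    exact_mod_cast (show (G.dist (g x) (g y) : ℝ) ≤ N by linarith [h1' (g x) (g y)])
  have n4 : ∀ y, G'.dist (f (g y)) y ≤ N := fun y => by
    rw [SimpleGraph.dist_comm]
    exact_mod_cast (show (G'.dist y (f (g y)) : ℝ) ≤ N by nlinarith [hg y])
  have n5 : ∀ x, G.dist (g (f x)) x ≤ N := fun x => by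
    have a2 : K * (G'.dist (f (g (f x))) (f x) + C) ≤ K * (1 + 3 * C) := by
      apply mul_le_mul_of_nonneg_left _ (by linarith)
      rw [SimpleGraph.dist_comm]
      linarith [hg (f x)]
    exact_mod_cast (show (G.dist (g (f x)) x : ℝ) ≤ N by linarith [h1' (g (f x)) x])
  exact ⟨fun ⟨_, h⟩ => main hG hG' hl hl' g f N n1 n3 n2 n5 n4 h,
    fun ⟨_, h⟩ => main hG' hG hl' hl f g N n1 n2 n3 n4 n5 h⟩

section Cayley
variable {Γ : Type} [Group Γ]

/-- left translation -/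
def tr (S : Set Γ) (g : Γ) : mulCayley S →g mulCayley S :=
  ⟨fun x => g * x, fun h => mulCayley_adj_mul_iff_right.2 h⟩

theorem cay_conn {S : Set Γ} (h : Subgroup.closure S = ⊤) : (mulCayley S).Connected := by
  rw [connected_iff_exists_forall_reachable]
  refine ⟨1, fun g => ?_⟩
  have hg : g ∈ Subgroup.closure S := h ▸ Subgroup.mem_top g
  induction hg using Subgroup.closure_induction with
  | mem x hx =>
    rcases eq_or_ne 1 x with rfl | e
    · rfl
    · exact Adj.reachable ((mulCayley_adj S _ _).2 ⟨e, Or.inl (by simpa using hx)⟩)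
  | one => rfl
  | mul x y _ _ ih ih' => exact ih.trans (by simpa [tr] using ih'.map (tr S x))
  | inv x _ ih => exact (by simpa [tr] using ih.map (tr S x⁻¹) : (mulCayley S).Reachable x⁻¹ 1).symm

theorem cay_lf (S : Finset Γ) (v : Γ) : ((mulCayley (S : Set Γ)).neighborSet v).Finite := by
  refine ((S.finite_toSet.image (v * ·)).union (S.finite_toSet.image (v * ·⁻¹))).subset ?_
  intro w hw
  rcases ((mulCayley_adj _ _ _).1 hw).2 with h | h
  · exact Or.inl ⟨_, h, by simp⟩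
  · exact Or.inr ⟨_, h, by simp⟩

theorem cay_lip (S T : Finset Γ) (hS : Subgroup.closure (S : Set Γ) = ⊤)
    (hT : Subgroup.closure (T : Set Γ) = ⊤) : ∃ K, ∀ N ≥ K, ∀ x y,
      (mulCayley (T : Set Γ)).dist x y ≤ N * (mulCayley (S : Set Γ)).dist x y := by
  refine ⟨S.sup fun s => (mulCayley (T : Set Γ)).dist 1 s, fun N hN =>
    lip (cay_conn hS) (cay_conn hT) id N ?_⟩
  have key : ∀ x y, x⁻¹ * y ∈ S → (mulCayley (T : Set Γ)).dist x y ≤ N := fun x y h => by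
    obtain ⟨p, hp⟩ := (cay_conn hT).exists_walk_length_eq_dist 1 (x⁻¹ * y)
    have := dist_le (p.map (tr T x))
    simp only [Walk.length_map, hp] at this
    have h2 := (this.trans (Finset.le_sup (f := fun s => (mulCayley (T : Set Γ)).dist 1 s) h)).trans hN
    simpa [tr] using h2
  intro x y h
  rcases ((mulCayley_adj _ _ _).1 h).2 with h | h
  · exact key x y h
  · exact SimpleGraph.dist_comm ▸ key y x h

theorem cay_gen (S T : Finset Γ) (hS : Subgroup.closure (S : Set Γ) = ⊤)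
    (hT : Subgroup.closure (T : Set Γ) = ⊤) (h : ∃ r, CB (mulCayley (S : Set Γ)) r) :
    ∃ r, CB (mulCayley (T : Set Γ)) r := by
  obtain ⟨K, hK⟩ := cay_lip S T hS hT
  obtain ⟨K', hK'⟩ := cay_lip T S hT hS
  obtain ⟨r, h⟩ := h
  exact main (cay_conn hS) (cay_conn hT) (cay_lf S) (cay_lf T) id id (K + K' + 1) (by omega)
    (hK' _ (by omega)) (hK _ (by omega)) (by simp) (by simp) h

end Cayley

end Pool.Agent.H.MP_40378c_al
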